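import Mathlib

set_option autoImplicit false

namespace Pool.Agent.Results.MP_2fc053_co.Unbounded

/-- `(l, v, r)` is a veto interval representation of `G`: vertex `a` gets the interval `[l a, r a]`
with veto mark `v a`, distinct vertices get distinct veto intervals, and adjacency is given by the
veto rule. -/
def IsRep {V : Type} (G : SimpleGraph V) (l v r : V → ℝ) : Prop :=
  (∀ a, l a < v a ∧ v a < r a) ∧ Function.Injective (fun a => (l a, v a, r a)) ∧
    ∀ a b, a ≠ b → (G.Adj a b ↔
      (v a < l b ∧ l b < r a ∧ r a < v b) ∨ (v b < l a ∧ l a < r b ∧ r b < v a))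

/-- veto interval graphs -/
def VI {V : Type} (G : SimpleGraph V) : Prop := ∃ l v r, IsRep G l v r

lemma VI.induce {V : Type} {G : SimpleGraph V} (h : VI G) (S : Set V) : VI (G.induce S) := by
  obtain ⟨l, v, r, h1, h2, h3⟩ := h
  refine ⟨fun a => l a.1, fun a => v a.1, fun a => r a.1, fun a => h1 a.1, fun a b hab => ?_,
    fun a b hab => h3 a.1 b.1 (fun e => hab (Subtype.ext e))⟩
  exact Subtype.ext (h2 hab)

abbrev T (n : ℕ) := {p : Fin n × Fin n × Fin n // p.1 < p.2.1 ∧ p.2.1 < p.2.2}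

def L {n : ℕ} (p : T n) : ℕ := 3 * p.1.1.val + 2
def M {n : ℕ} (p : T n) : ℕ := 3 * p.1.2.1.val + 1
def R {n : ℕ} (p : T n) : ℕ := 3 * p.1.2.2.val

def gr (n : ℕ) : SimpleGraph (T n) where
  Adj a b := a ≠ b ∧ ((M a < L b ∧ L b < R a ∧ R a < M b) ∨ (M b < L a ∧ L a < R b ∧ R b < M a))
  symm := ⟨fun _ _ h => ⟨h.1.symm, h.2.symm⟩⟩
  loopless := ⟨fun _ h => h.1 rfl⟩

lemma gr_vi (n : ℕ) : VI (gr n) := by
  refine ⟨fun a => L a, fun a => M a, fun a => R a, fun a => ?_, fun a b hab => ?_,
    fun a b hab => ?_⟩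
  · obtain ⟨⟨x, y, z⟩, h1, h2⟩ := a
    have h1' : x.val < y.val := h1
    have h2' : y.val < z.val := h2
    beta_reduce
    norm_cast
    simp only [L, M, R]
    omega
  · simp only [Prod.mk.injEq, Nat.cast_inj, L, M, R] at hab
    obtain ⟨⟨x, y, z⟩, h1⟩ := a
    obtain ⟨⟨x', y', z'⟩, h2⟩ := b
    simp only at hab
    simp only [Subtype.mk.injEq, Prod.mk.injEq, Fin.ext_iff]
    omega
  · simp only [gr, hab, ne_eq, not_false_eq_true, true_and]
    norm_cast

lemma shift {n : ℕ} (x y z w : Fin n) (h1 : x < y) (h2 : y < z) (h3 : z < w) :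
    (gr n).Adj ⟨(x, y, z), h1, h2⟩ ⟨(y, z, w), h2, h3⟩ := by
  have h1' : x.val < y.val := h1
  have h2' : y.val < z.val := h2
  refine ⟨fun e => ?_, Or.inl ?_⟩
  · simp only [Subtype.mk.injEq, Prod.mk.injEq] at e
    exact h1.ne e.1
  · simp only [L, M, R]
    omega

lemma not_col (k : ℕ) : ¬ (gr (2 ^ 2 ^ k + 2)).Colorable k := by
  classical
  rintro ⟨C⟩
  set n := 2 ^ 2 ^ k + 2 with hn
  let S : Fin n → Fin n → Finset (Fin k) := fun x y =>
    Finset.univ.filter fun c => ∃ z, ∃ h : x < y ∧ y < z, C ⟨(x, y, z), h⟩ = c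
  have hS : ∀ x y z w : Fin n, x < y → y < z → S x y ≠ S y z := by
    intro x y z w h1 h2 e
    have : C ⟨(x, y, z), h1, h2⟩ ∈ S y z := by
      rw [← e]; simp only [S, Finset.mem_filter, Finset.mem_univ, true_and]
      exact ⟨z, ⟨h1, h2⟩, rfl⟩
    simp only [S, Finset.mem_filter, Finset.mem_univ, true_and] at this
    obtain ⟨u, hu, e2⟩ := this
    exact C.valid (shift x y z u h1 h2 hu.2) e2.symm
  let U : Fin n → Finset (Finset (Fin k)) := fun x =>
    Finset.univ.filter fun s => ∃ y, x < y ∧ S x y = s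
  have hU : ∀ x y : Fin n, x < y → U x ≠ U y := by
    intro x y h1 e
    have : S x y ∈ U y := by
      rw [← e]; simp only [U, Finset.mem_filter, Finset.mem_univ, true_and]
      exact ⟨y, h1, rfl⟩
    simp only [U, Finset.mem_filter, Finset.mem_univ, true_and] at this
    obtain ⟨u, hu, e2⟩ := this
    exact hS x y u u h1 hu e2.symm
  have inj : Function.Injective U := by
    intro x y e
    rcases lt_trichotomy x y with h | h | h
    · exact absurd e (hU x y h)
    · exact h
    · exact absurd e.symm (hU y x h)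
  have := Fintype.card_le_of_injective U inj
  simp only [Fintype.card_fin, Fintype.card_finset] at this
  omega

def Col {V : Type} (G : SimpleGraph V) (S : Finset V) (k : ℕ) : Prop :=
  ∃ f : V → ℕ, (∀ a ∈ S, f a < k) ∧ ∀ a ∈ S, ∀ b ∈ S, G.Adj a b → f a ≠ f b

lemma col_iff {V : Type} (G : SimpleGraph V) (S : Finset V) (k : ℕ) :
    Col G S k ↔ (G.induce (S : Set V)).Colorable k := by
  classical
  constructor
  · rintro ⟨f, h1, h2⟩
    exact ⟨SimpleGraph.Coloring.mk (fun a => (⟨f a.1, h1 a.1 a.2⟩ : Fin k))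
      (fun {a b} hab e => h2 a.1 a.2 b.1 b.2 hab (congrArg Fin.val e))⟩
  · rintro ⟨C⟩
    refine ⟨fun a => if h : a ∈ S then (C ⟨a, h⟩).val else 0, fun a ha => ?_,
      fun a ha b hb hab => ?_⟩
    · simp [ha]
    · simp only [ha, hb, dif_pos]
      exact fun e => C.valid (show (G.induce (S : Set V)).Adj ⟨a, ha⟩ ⟨b, hb⟩ from hab) (Fin.ext e)

lemma ivt {V : Type} [DecidableEq V] (G : SimpleGraph V) (k : ℕ) (S : Finset V) :
    ¬ Col G S k → ∃ T : Finset V, ¬ Col G T k ∧ Col G T (k + 1) := by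
  induction S using Finset.induction_on with
  | empty => intro h; exact absurd ⟨fun _ => 0, by simp, by simp⟩ h
  | insert a S ha ih =>
    intro h
    by_cases hS : Col G S k
    · obtain ⟨f, h1, h2⟩ := hS
      refine ⟨insert a S, h, Function.update f a k, fun b hb => ?_, fun b hb c hc hbc => ?_⟩
      · rcases Finset.mem_insert.1 hb with rfl | hb
        · simp
        · rw [Function.update_of_ne (fun e => ha (by rw [← e]; exact hb))]
          have := h1 b hb; omega
      · rcases Finset.mem_insert.1 hb with e1 | hb' <;> rcases Finset.mem_insert.1 hc with e2 | hc'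
        · exact absurd (e1.trans e2.symm) hbc.ne
        · rw [e1, Function.update_self, Function.update_of_ne (fun e => ha (by rw [← e]; exact hc'))]
          exact (h1 c hc').ne'
        · rw [e2, Function.update_self, Function.update_of_ne (fun e => ha (by rw [← e]; exact hb'))]
          exact (h1 b hb').ne
        · rw [Function.update_of_ne (fun e => ha (by rw [← e]; exact hb')),
            Function.update_of_ne (fun e => ha (by rw [← e]; exact hc'))]
          exact h2 b hb' c hc' hbc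
    · exact ih hS

lemma chi_eq {V : Type} (G : SimpleGraph V) (k : ℕ) (h1 : G.Colorable (k + 1))
    (h2 : ¬ G.Colorable k) : G.chromaticNumber = (k + 1 : ℕ) := by
  refine le_antisymm h1.chromaticNumber_le ?_
  by_contra hc
  push Not at hc
  apply h2
  rw [← SimpleGraph.chromaticNumber_le_iff_colorable]
  exact Order.le_of_lt_succ (by simpa using hc)

lemma sub {V : Type} [Fintype V] (G : SimpleGraph V) (j : ℕ) (hn : ¬ G.Colorable j) :
    ∃ S : Finset V, (G.induce (S : Set V)).chromaticNumber = (j + 1 : ℕ) := by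
  classical
  have h0 : ¬ Col G Finset.univ j := by
    rintro ⟨f, h1, h2⟩
    exact hn ⟨SimpleGraph.Coloring.mk (fun a => (⟨f a, h1 a (Finset.mem_univ _)⟩ : Fin j))
      (fun {a b} hab e => h2 a (Finset.mem_univ _) b (Finset.mem_univ _) hab (congrArg Fin.val e))⟩
  obtain ⟨S, h1, h2⟩ := ivt _ j _ h0
  exact ⟨S, chi_eq _ j ((col_iff G S _).1 h2) (fun h => h1 ((col_iff G S _).2 h))⟩

/-- Every positive integer is the chromatic number of a finite veto interval graph. -/
theorem result : ∀ k : ℕ, 1 ≤ k → ∃ (V : Type) (_ : Fintype V) (G : SimpleGraph V),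
    VI G ∧ G.chromaticNumber = k := by
  intro k hk
  obtain ⟨j, rfl⟩ : ∃ j, k = j + 1 := ⟨k - 1, by omega⟩
  obtain ⟨n, hn⟩ : ∃ n, ¬ (gr n).Colorable j := ⟨_, not_col j⟩
  obtain ⟨S, hS⟩ := sub (gr n) j hn
  exact ⟨(S : Set (T n)), FinsetCoe.fintype S, _, (gr_vi n).induce (S : Set (T n)), hS⟩

end Pool.Agent.Results.MP_2fc053_co.Unbounded
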